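import Pool.Graph.R_seed8.TH670.AC.MSFam

/-!
# The Miller-Schupp presentations of index `n (n + 1) / 6`
-/

set_option autoImplicit false

namespace Pool.Agent.Helper92.AC

open Pool.Agent.TH670.AC

/-- the relator `x³ y x⁴ y` -/
def R : F := x ^ 3 * y * x * (x ^ 3 * y)

/-- the relator `x² y^(m+1) x y^(-m)` -/
def S (m : ℤ) : F := x ^ 2 * y ^ (m + 1) * x * y ^ (-m)

/-- the automorphism `x ↦ x y⁻²`, `y ↦ (x y⁻²)⁻³ y` -/
noncomputable def psi : F ≃* F :=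
  MonoidHom.toMulEquiv (endo (x * (y ^ 2)⁻¹) ((x * (y ^ 2)⁻¹)⁻¹ ^ 3 * y))
    (endo (x * (x ^ 3 * y) ^ 2) (x ^ 3 * y))
    (hom_ext (by simp [pow_succ]; try group) (by simp [pow_succ]; try group))
    (hom_ext (by simp [pow_succ]; try group) (by simp [pow_succ]; try group))

@[simp] theorem psi_x : psi x = x * (y ^ 2)⁻¹ := by simp [psi]
@[simp] theorem psi_y : psi y = (x * (y ^ 2)⁻¹)⁻¹ ^ 3 * y := by simp [psi]

theorem nielsen_psi : Nielsen psi := by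
  unfold Nielsen
  rw [psi_x, psi_y]
  have h1 : ACEquiv (x * (y ^ 2)⁻¹, (x * (y ^ 2)⁻¹)⁻¹ ^ 3 * y) (x * (y ^ 2)⁻¹, y) := by
    refine AC_right fun H _ f hf => ?_
    rw [map_mul, map_pow, map_inv, hf, inv_one, one_pow, one_mul]
  have h2 : ACEquiv (x * (y ^ 2)⁻¹, y) (x, y) := by
    refine AC_left fun H _ f hf => ?_
    rw [map_mul, map_inv, map_pow, hf, one_pow, inv_one, mul_one]
  exact h1.trans h2

theorem psi_R : psi R = y * x * y⁻¹ := by
  have h : psi (x ^ 3 * y) = y := by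
    rw [map_mul, map_pow, psi_x, psi_y, inv_pow, mul_inv_cancel_left]
  rw [R, map_mul, map_mul, h, psi_x]
  group

theorem triv_RS (m : ℤ) : ACTrivial (S m, R) := by
  refine trivial_of_map nielsen_psi ?_
  rw [psi_R]
  have h1 : ACEquiv (psi (S m), y * x * y⁻¹) (psi (S m), x) := by
    have h := AC_of (Move.conj_right y⁻¹ (psi (S m)) (y * x * y⁻¹))
    have e : y⁻¹ * (y * x * y⁻¹) * y⁻¹⁻¹ = x := by group
    rwa [e] at h
  have h2 : ACEquiv (psi (S m), x) (y, x) := by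
    refine AC_left fun H _ f hf => ?_
    simp only [S, map_mul, map_pow, map_zpow, psi_x, psi_y, map_inv, hf, one_mul]
    have e : ((f y ^ 2)⁻¹)⁻¹ ^ 3 * f y = f y ^ (7 : ℤ) := by group
    rw [e, ← zpow_mul, ← zpow_mul]
    have e2 : (f y ^ 2)⁻¹ = f y ^ (-2 : ℤ) := by group
    rw [e2, ← zpow_natCast, ← zpow_mul, ← zpow_add, ← zpow_add, ← zpow_add]
    have e3 : (-2 : ℤ) * ((2 : ℕ) : ℤ) + 7 * (m + 1) + -2 + 7 * -m = 1 := by push_cast; ring
    rw [e3, zpow_one]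
  exact h1.trans (h2.trans (AC_swap y x))

theorem key {H : Type*} [Group H] (a b : H) (m : ℤ)
    (h : a ^ 2 * b ^ (m + 1) * a * b ^ (-m) = 1) :
    a * b ^ (2 * m + 1) * a ^ 2 * (b ^ (2 * m + 1))⁻¹ * (a ^ 2)⁻¹ = a ^ 3 * b * a * (a ^ 3 * b) := by
  have e1 : b ^ m * a * (b ^ m)⁻¹ = b⁻¹ * (a ^ 2)⁻¹ := by
    have h1 : a ^ 2 * b * (b ^ m * a * (b ^ m)⁻¹) = 1 := by
      rw [← h, zpow_add, zpow_one, zpow_neg, ((Commute.refl b).zpow_left m).eq]
      group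
    rw [← mul_inv_rev]
    exact eq_inv_of_mul_eq_one_right h1
  have e2 : b ^ m * a ^ 2 * (b ^ m)⁻¹ = b⁻¹ * (a ^ 2)⁻¹ * (b⁻¹ * (a ^ 2)⁻¹) := by
    rw [← e1]
    simp only [pow_two]
    group
  have e3 : b ^ m * b * (b ^ m)⁻¹ = b := by
    rw [((Commute.refl b).zpow_left m).eq]
    group
  have e4 : b ^ m * (b⁻¹ * (a ^ 2)⁻¹ * (b⁻¹ * (a ^ 2)⁻¹)) * (b ^ m)⁻¹
      = b⁻¹ * (a ^ 2 * b * (a ^ 2 * b)) * (b⁻¹ * (a ^ 2 * b * (a ^ 2 * b))) := by
    have e5 : b ^ m * (b⁻¹ * (a ^ 2)⁻¹) * (b ^ m)⁻¹ = b⁻¹ * (a ^ 2 * b * (a ^ 2 * b)) := by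
      calc b ^ m * (b⁻¹ * (a ^ 2)⁻¹) * (b ^ m)⁻¹
          = (b ^ m * b * (b ^ m)⁻¹)⁻¹ * (b ^ m * a ^ 2 * (b ^ m)⁻¹)⁻¹ := by group
        _ = _ := by rw [e2, e3]; group
    calc b ^ m * (b⁻¹ * (a ^ 2)⁻¹ * (b⁻¹ * (a ^ 2)⁻¹)) * (b ^ m)⁻¹
        = (b ^ m * (b⁻¹ * (a ^ 2)⁻¹) * (b ^ m)⁻¹) * (b ^ m * (b⁻¹ * (a ^ 2)⁻¹) * (b ^ m)⁻¹) := by
          group
      _ = _ := by rw [e5]
  have e6 : b ^ (2 * m + 1) * a ^ 2 * (b ^ (2 * m + 1))⁻¹
      = b * (b ^ m * (b ^ m * a ^ 2 * (b ^ m)⁻¹) * (b ^ m)⁻¹) * b⁻¹ := by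
    have e7 : b ^ (2 * m + 1) = b * b ^ m * b ^ m := by
      rw [mul_assoc, ← zpow_add, ← zpow_one_add]
      congr 1
      ring
    rw [e7]
    group
  calc a * b ^ (2 * m + 1) * a ^ 2 * (b ^ (2 * m + 1))⁻¹ * (a ^ 2)⁻¹
      = a * (b ^ (2 * m + 1) * a ^ 2 * (b ^ (2 * m + 1))⁻¹) * (a ^ 2)⁻¹ := by
        simp only [mul_assoc]
    _ = _ := by
        rw [e6, e2, e4]
        group

/-- `⟨x, y | x y^(3m+2) x = y^(3m+1), y^(-(2m+1)) x y^(2m+1) = x²⟩` -/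
theorem triv_Q6 (m : ℤ) :
    ACTrivial (x * y ^ (3 * m + 1 + 1) * x * y ^ (-(3 * m + 1)), W (-(2 * m + 1))) := by
  have h1 : ACEquiv (x * y ^ (3 * m + 1 + 1) * x * y ^ (-(3 * m + 1)), W (-(2 * m + 1)))
      (S m, W (-(2 * m + 1))) := by
    refine AC_left_conj (y ^ (-(2 * m + 1))) fun H _ f hf => ?_
    simp only [W, map_mul, map_inv, map_zpow, map_pow] at hf
    rw [mul_inv_eq_one, neg_neg] at hf
    have e : f x * f y ^ (2 * m + 1) = f y ^ (2 * m + 1) * f x ^ 2 := by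
      rw [← hf]
      group
    simp only [S, map_mul, map_zpow, map_pow, map_inv]
    have e2 : f y ^ (3 * m + 1 + 1) = f y ^ (2 * m + 1) * f y ^ (m + 1) := by
      rw [← zpow_add]
      congr 1
      ring
    rw [e2]
    have e3 : f y ^ (-(3 * m + 1)) * (f y ^ (-(2 * m + 1)))⁻¹ = f y ^ (-m) := by
      rw [← zpow_neg, ← zpow_add]
      congr 1
      ring
    calc f y ^ (-(2 * m + 1)) * (f x * (f y ^ (2 * m + 1) * f y ^ (m + 1)) * f x *
            f y ^ (-(3 * m + 1))) * (f y ^ (-(2 * m + 1)))⁻¹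
        = f y ^ (-(2 * m + 1)) * (f x * f y ^ (2 * m + 1)) * f y ^ (m + 1) * f x *
            (f y ^ (-(3 * m + 1)) * (f y ^ (-(2 * m + 1)))⁻¹) := by
          simp only [mul_assoc]
      _ = f y ^ (-(2 * m + 1)) * (f y ^ (2 * m + 1) * f x ^ 2) * f y ^ (m + 1) * f x *
            f y ^ (-m) := by
          rw [e, e3]
      _ = _ := by
          rw [zpow_neg, inv_mul_cancel_left]
  have h2 : ACEquiv (S m, W (-(2 * m + 1))) (S m, R) := by
    refine AC_right_inv (x * y ^ (2 * m + 1)) fun H _ f hf => ?_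
    simp only [S, map_mul, map_zpow, map_pow] at hf
    have h := key (f x) (f y) m hf
    simp only [R, W, map_mul, map_inv, map_zpow, map_pow]
    rw [← h]
    group
  exact h1.trans (h2.trans (triv_RS m))

theorem triv_six_neg (m : ℤ) :
    ACTrivial (U (2 * (3 * m + 1)) (2 * (3 * m + 1) + 1), V (3 * m + 1) (-(2 * m + 1))) :=
  (half_AC (3 * m + 1) 1 (-(2 * m + 1))).trans
    (trivial_of_map (nielsen_shift (3 * m + 1 + -(2 * m + 1) + 1))
    ((half_shift (3 * m + 1) 1 (-(2 * m + 1))).trans (triv_Q6 m)))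

theorem flip_U (p q : ℤ) : y ^ q * (flipY (U p q))⁻¹ * (y ^ q)⁻¹ = U p q := by
  simp only [U, map_mul, map_inv, map_zpow, flipY_x, flipY_y]
  group

theorem flip_V (a b : ℤ) : flipY (V a b) = V (-a) (-b) := by
  simp only [V, map_mul, map_inv, map_zpow, map_pow, flipY_x, flipY_y, inv_zpow']

theorem trivial_flip {p q a b : ℤ} (h : ACTrivial (U p q, V (-a) (-b))) :
    ACTrivial (U p q, V a b) := by
  refine trivial_of_map nielsen_flipY ?_
  rw [flip_V]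
  exact (AC_left_inv (y ^ q) fun H _ f _ => by rw [flip_U]).trans h

theorem triv_six_pos (m : ℤ) :
    ACTrivial (U (2 * (3 * m + 1)) (2 * (3 * m + 1) + 1), V (3 * m + 1) (2 * m + 1)) := by
  refine trivial_flip ?_
  refine trivial_congr (a := 3 * m + 1) (b := -(2 * m + 1)) ⟨-1, by ring⟩ (by simp)
    (triv_six_neg m)

theorem U_neg (p q : ℤ) (v : F) : ACEquiv (U p q, v) (U (-p) (-q), v) := by
  refine AC_left_inv (y ^ (-q)) fun H _ f _ => ?_
  simp only [U, map_mul, map_inv, map_zpow]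
  group

/-- the index `n (n + 1) / 6` -/
theorem six_trivial {n : ℕ} {d k : ℤ} (hk : (n : ℤ) * (n + 1) = 6 * k)
    (h : (n : ℤ) * (n + 1) ∣ d - k ∨ (n : ℤ) * (n + 1) ∣ d + k) :
    ACTrivial (U n (n + 1), V d (-d)) := by
  -- reduction to `d = k`
  have key2 : ACTrivial (U n (n + 1), V k (-k)) → ACTrivial (U n (n + 1), V d (-d)) := by
    intro h0
    rcases h with h | h
    · refine trivial_congr ((dvd_mul_right _ _).trans h) ?_ h0
      have e : -d - -k = -(d - k) := by ring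
      rw [e]
      exact dvd_neg.2 ((dvd_mul_left _ _).trans h)
    · refine trivial_flip ?_
      refine trivial_congr (a := k) (b := -k) ?_ ?_ h0
      · have e : -d - k = -(d + k) := by ring
        rw [e]
        exact dvd_neg.2 ((dvd_mul_right _ _).trans h)
      · have e : - -d - -k = d + k := by ring
        rw [e]
        exact (dvd_mul_left _ _).trans h
  apply key2
  have hpq : ((n : ℤ) + 1) - n = 1 ∨ ((n : ℤ) + 1) - n = -1 := Or.inl (by ring)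
  -- the residue of `n` modulo `6`
  obtain ⟨j, r, hn, hr0, hr6⟩ : ∃ j r : ℤ, (n : ℤ) = 6 * j + r ∧ 0 ≤ r ∧ r < 6 :=
    ⟨n / 6, n % 6, (Int.mul_ediv_add_emod _ _).symm, Int.emod_nonneg _ (by norm_num),
      Int.emod_lt_of_pos _ (by norm_num)⟩
  have hcases : r = 0 ∨ r = 1 ∨ r = 2 ∨ r = 3 ∨ r = 4 ∨ r = 5 := by omega
  rcases hcases with rfl | rfl | rfl | rfl | rfl | rfl
  · -- `n = 6 j`
    refine triv_b _ _ _ _ hpq (dvd_neg.2 ⟨j, ?_⟩)
    rw [hn] at hk ⊢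
    linarith
  · exfalso
    have h1 : (6 * j + 1) * (6 * j + 1 + 1) = 6 * (6 * j * j + 3 * j) + 2 := by ring
    rw [hn, h1] at hk
    omega
  · -- `n = 6 j + 2`
    have hk' : k = (3 * j + 1) * (2 * j + 1) := by
      rw [hn] at hk
      have : (6 * j + 2) * (6 * j + 2 + 1) = 6 * ((3 * j + 1) * (2 * j + 1)) := by ring
      linarith
    have h0 := triv_six_neg j
    have e1 : 2 * (3 * j + 1) = (n : ℤ) := by rw [hn]; ring
    rw [e1] at h0
    refine trivial_congr ⟨j, ?_⟩ ⟨-j, ?_⟩ h0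
    · rw [hk', hn]; ring
    · rw [hk', hn]; ring
  · -- `n = 6 j + 3`
    have hk' : k = (2 * j + 1) * (3 * j + 2) := by
      rw [hn] at hk
      have : (6 * j + 3) * (6 * j + 3 + 1) = 6 * ((2 * j + 1) * (3 * j + 2)) := by ring
      linarith
    refine trivial_dual ?_
    refine (U_neg _ _ _).trans ?_
    have h0 := triv_six_pos (-j - 1)
    have e1 : 2 * (3 * (-j - 1) + 1) = -((n : ℤ) + 1) := by rw [hn]; ring
    have e2 : -((n : ℤ) + 1) + 1 = -(n : ℤ) := by ring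
    rw [e1, e2] at h0
    refine trivial_congr ⟨j, ?_⟩ ⟨-(j + 1), ?_⟩ h0
    · rw [hk', hn]; ring
    · rw [hk', hn]; ring
  · exfalso
    have h1 : (6 * j + 4) * (6 * j + 4 + 1) = 6 * (6 * j * j + 9 * j + 3) + 2 := by ring
    rw [hn, h1] at hk
    omega
  · -- `n = 6 j + 5`
    refine triv_a _ _ _ _ hpq ⟨j + 1, ?_⟩
    rw [hn] at hk ⊢
    linarith

theorem M_six {n : ℕ} {d k : ℤ} (hk : (n : ℤ) * (n + 1) = 6 * k)
    (h : (n : ℤ) * (n + 1) ∣ d - k ∨ (n : ℤ) * (n + 1) ∣ d + k) : ACTrivial (M n d) := by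
  rw [M_eq]
  exact six_trivial hk h

theorem MS_six {n : ℕ} {w : F} {d k : ℤ} (hw : HasIndex n w d) (hk : (n : ℤ) * (n + 1) = 6 * k)
    (h : (n : ℤ) * (n + 1) ∣ d - k ∨ (n : ℤ) * (n + 1) ∣ d + k) : ACTrivial (MS n w) := by
  obtain ⟨l, hl⟩ := index_AC hw
  rw [MS_eq]
  exact trivial_of_map (nielsen_shift l) (hl.trans (six_trivial hk h))

/-! ### Presentations with different `n` -/

theorem central {H : Type*} [Group H] {z t : H} {q : ℤ} (h : z ^ 2 = t ^ q) (b : ℤ) :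
    Commute (z ^ 2) (t ^ b) := by
  rw [h]
  exact ((Commute.refl t).zpow_left q).zpow_right b

/-- `z = x y^(-b)`; the two second relators agree up to inversion modulo `z² = y^(2c+1)` -/
theorem half_half (c b : ℤ) :
    ACEquiv ((x * y ^ (-b)) ^ 2 * y ^ (-(2 * c + 1)),
        x * y ^ b * x⁻¹ * y ^ (-b) * x * y ^ (-(c + b + 1)))
      ((x * y ^ (-b)) ^ 2 * y ^ (-(2 * (c + 1) + -1)),
        x * y ^ b * x⁻¹ * y ^ (-b) * x * y ^ (-((c + 1) + b + -1))) := by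
  have e0 : (-(2 * (c + 1) + -1) : ℤ) = -(2 * c + 1) := by ring
  have e1 : (-((c + 1) + b + -1) : ℤ) = -(c + b) := by ring
  rw [e0, e1]
  refine AC_right_inv (y ^ (-(c + 1 : ℤ))) fun H _ f hf => ?_
  simp only [map_mul, map_zpow, map_pow, map_inv] at hf ⊢
  rw [zpow_neg (f y) (2 * c + 1), mul_inv_eq_one] at hf
  obtain ⟨z, hz⟩ : ∃ z : H, z = f x * f y ^ (-b) := ⟨_, rfl⟩
  have hx : f x = z * f y ^ b := by rw [hz]; group
  rw [← hz] at hf
  rw [hx]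
  have hc : z ^ 2 * f y ^ b = f y ^ b * z ^ 2 := (central hf b).eq
  have k1 : z⁻¹ * f y ^ b * z = z * f y ^ b * z⁻¹ := by
    calc z⁻¹ * f y ^ b * z = z⁻¹ * (f y ^ b * z ^ 2) * z⁻¹ := by group
      _ = _ := by rw [← hc]; group
  have k2 : z⁻¹ * f y ^ (c + 1) = z * f y ^ (-c) := by
    have k3 : f y ^ (c + 1) = f y ^ (2 * c + 1) * f y ^ (-c) := by
      rw [← zpow_add]
      congr 1
      ring
    rw [k3, ← hf]
    group
  calc f y ^ (-(c + 1)) * (z * f y ^ b * f y ^ b * (z * f y ^ b)⁻¹ * f y ^ (-b) * (z * f y ^ b) *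
          f y ^ (-(c + b + 1)))⁻¹ * (f y ^ (-(c + 1)))⁻¹
      = (z⁻¹ * f y ^ b * z) * f y ^ (-b) * (z⁻¹ * f y ^ (c + 1)) := by group
    _ = _ := by
        rw [k1, k2]
        group

theorem half_V (c b : ℤ) :
    ACEquiv (U (2 * c) (2 * c + 1), V c b) (U (2 * c + 2) (2 * c + 1), V (c + 1) b) := by
  have h1 := half_AC c 1 b
  have h2 := half_AC (c + 1) (-1) b
  have e1 : (2 * (c + 1) : ℤ) = 2 * c + 2 := by ring
  have e2 : (2 * c + 2 + -1 : ℤ) = 2 * c + 1 := by ring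
  have h3 := half_half c b
  rw [e1, e2] at h2 h3
  exact h1.trans (h3.trans h2.symm)

/-- the presentations `M (2 c) d` and `M (2 c + 1) d'` for `d ≡ c`, `d' ≡ c + 1` modulo `2 c`, `2 c + 2`
and `d ≡ ± d'` modulo `2 c + 1` -/
theorem M_half {c : ℕ} {d d' : ℤ} (h : (2 * c : ℤ) ∣ d - c) (h' : (2 * c + 2 : ℤ) ∣ d' - (c + 1))
    (hd : (2 * c + 1 : ℤ) ∣ d - d' ∨ (2 * c + 1 : ℤ) ∣ d + d') :
    Equivalent (M (2 * c) d) (M (2 * c + 1) d') := by
  have key3 : ∀ d' : ℤ, (2 * c + 2 : ℤ) ∣ d' - (c + 1) → (2 * c + 1 : ℤ) ∣ d + d' →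
      Equivalent (M (2 * c) d) (M (2 * c + 1) d') := by
    intro d' h' hd
    have hU : Equivalent (U (2 * c + 2) (2 * c + 1), V (c + 1) d')
        (U ((2 * c + 1 : ℕ) : ℤ) ((2 * c + 1 : ℕ) + 1), V d' (-d')) := by
      have h1 : Equivalent (U (2 * c + 2) (2 * c + 1), V (c + 1) d')
          (U (2 * c + 2) (2 * c + 1), V (-d') d') := by
        refine equiv_congr ?_ (by simp)
        have e : (c : ℤ) + 1 - -d' = (d' - (c + 1)) + (2 * c + 2) := by ring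
        rw [e]
        exact dvd_add h' (dvd_refl _)
      have e1 : (((2 * c + 1 : ℕ) : ℤ) + 1) = 2 * c + 2 := by push_cast; ring
      have e2 : ((2 * c + 1 : ℕ) : ℤ) = 2 * c + 1 := by push_cast; ring
      rw [e1, e2]
      exact h1.trans ⟨flip, dual_AC _ _ _ _⟩
    have h3 : Equivalent (M (2 * c) d) (U (2 * c) (2 * c + 1), V c d') := by
      rw [M_eq]
      have e2 : ((2 * c : ℕ) : ℤ) = 2 * c := by push_cast; ring
      rw [e2]
      refine equiv_congr h ?_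
      have e : -d - d' = -(d + d') := by ring
      rw [e]
      exact dvd_neg.2 hd
    rw [M_eq (2 * c + 1)]
    exact h3.trans ((Equivalent.of_AC (half_V c d')).trans hU)
  rcases hd with hd | hd
  · refine (key3 (-d') ?_ (by rw [← sub_eq_add_neg]; exact hd)).trans (M_neg _ _)
    have e : -d' - ((c : ℤ) + 1) = -(d' - (c + 1)) - (2 * c + 2) := by ring
    rw [e]
    exact dvd_sub (dvd_neg.2 h') (dvd_refl _)
  · exact key3 d' h' hd

end Pool.Agent.Helper92.AC
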